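import Pool.Agent.Helper94.PU.Sheet
open MeasureTheory Metric Set Filter Topology Real
open scoped ENNReal NNReal

/-!
Row SCL of project PU: scaling to the unit disc.
-/

namespace H11ST
namespace PU
namespace SCL

/-- the homothety from the unit disc to the disc `ball x r` -/
noncomputable def hom (x : E 2) (r : ℝ) (hr : 0 < r) : E 2 ≃ₜ E 2 where
  toFun w := x + r • w
  invFun z := r⁻¹ • (z - x)
  left_inv w := by
    show r⁻¹ • (x + r • w - x) = w
    rw [add_sub_cancel_left, smul_smul, inv_mul_cancel₀ hr.ne', one_smul]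
  right_inv z := by
    show x + r • (r⁻¹ • (z - x)) = z
    rw [smul_smul, mul_inv_cancel₀ hr.ne', one_smul, add_sub_cancel]
  continuous_toFun := by fun_prop
  continuous_invFun := by fun_prop

variable {x : E 2} {r : ℝ} (hr : 0 < r)

theorem hom_apply (w : E 2) : hom x r hr w = x + r • w := rfl

theorem hom_symm_apply (z : E 2) : (hom x r hr).symm z = r⁻¹ • (z - x) := rfl

theorem dist_hom (v w : E 2) : dist (hom x r hr v) (hom x r hr w) = r * dist v w := by
  rw [hom_apply, hom_apply, dist_add_left, dist_smul₀, Real.norm_eq_abs, abs_of_pos hr]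

theorem dist_hom_symm (v w : E 2) :
    dist ((hom x r hr).symm v) ((hom x r hr).symm w) = r⁻¹ * dist v w := by
  rw [hom_symm_apply, hom_symm_apply, dist_smul₀, Real.norm_eq_abs, abs_of_pos (inv_pos.2 hr),
    dist_sub_right]

theorem meas_image_le (B : Set (E 2)) :
    μH[1] (hom x r hr '' B) ≤ ENNReal.ofReal r * μH[1] B := by
  have hL : LipschitzWith (Real.toNNReal r) (hom x r hr) := by
    refine LipschitzWith.of_dist_le_mul fun v w => ?_
    rw [dist_hom, Real.coe_toNNReal r hr.le]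
  have := hL.hausdorffMeasure_image_le (d := 1) zero_le_one B
  rwa [ENNReal.rpow_one] at this

theorem meas_symm_image_le (B : Set (E 2)) :
    μH[1] ((hom x r hr).symm '' B) ≤ ENNReal.ofReal r⁻¹ * μH[1] B := by
  have hL : LipschitzWith (Real.toNNReal r⁻¹) (hom x r hr).symm := by
    refine LipschitzWith.of_dist_le_mul fun v w => ?_
    rw [dist_hom_symm, Real.coe_toNNReal r⁻¹ (inv_pos.2 hr).le]
  have := hL.hausdorffMeasure_image_le (d := 1) zero_le_one B
  rwa [ENNReal.rpow_one] at this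

theorem mem_ball_hom (w : E 2) (z : E 2) (ε : ℝ) :
    hom x r hr w ∈ ball (hom x r hr z) (r * ε) ↔ w ∈ ball z ε := by
  rw [mem_ball, mem_ball, dist_hom, mul_lt_mul_iff_right₀ hr]

theorem hom_zero : hom x r hr 0 = x := by
  rw [hom_apply, smul_zero, add_zero]

theorem mem_ball_hom_zero (w : E 2) (ε : ℝ) : hom x r hr w ∈ ball x (ε * r) ↔ w ∈ ball 0 ε := by
  have := mem_ball_hom (x := x) hr w 0 ε
  rwa [hom_zero, mul_comm] at this

theorem mem_ball_hom_one (w : E 2) : hom x r hr w ∈ ball x r ↔ w ∈ ball 0 1 := by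
  have := mem_ball_hom_zero (x := x) hr w 1
  rwa [one_mul] at this

theorem preimage_eq (B : Set (E 2)) : hom x r hr ⁻¹' B = (hom x r hr).symm '' B := by
  rw [Homeomorph.image_symm]

theorem lin {S : Set (E 2)} {w u : E 2} {ε : ℝ} (h : Lin S (hom x r hr w) u ε) :
    Lin (hom x r hr ⁻¹' S) w u (ε / r) := by
  refine ⟨div_pos h.pos hr, h.unit, ?_⟩
  have he : r * (ε / r) = ε := mul_div_cancel₀ ε hr.ne'
  ext v
  have h1 : v ∈ hom x r hr ⁻¹' S ∩ ball w (ε / r) ↔
      hom x r hr v ∈ S ∩ ball (hom x r hr w) ε := by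
    rw [mem_inter_iff, mem_inter_iff, mem_preimage, ← mem_ball_hom (x := x) hr v w (ε / r), he]
  rw [h1, h.eq, mem_ofPred_eq, mem_ofPred_eq]
  constructor
  · rintro ⟨s, hs, hv⟩
    refine ⟨s / r, ?_, ?_⟩
    · rw [abs_div, abs_of_pos hr]
      exact div_lt_div_of_pos_right hs hr
    · rw [hom_apply, hom_apply] at hv
      have h2 : r • v = r • w + s • u := by
        have := congrArg (fun z => z - x) hv
        simpa [add_sub_cancel_left, add_assoc] using this
      have h3 := congrArg (fun z => r⁻¹ • z) h2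
      simp only [smul_add, smul_smul, inv_mul_cancel₀ hr.ne', one_smul] at h3
      rw [h3, div_eq_inv_mul]
  · rintro ⟨s, hs, rfl⟩
    refine ⟨r * s, ?_, ?_⟩
    · rw [abs_mul, abs_of_pos hr]
      calc r * |s| < r * (ε / r) := (mul_lt_mul_iff_right₀ hr).2 hs
        _ = ε := he
    · rw [hom_apply, hom_apply, smul_add, smul_smul, add_assoc]

theorem tri {S : Set (E 2)} {w : E 2} {u : Fin 3 → E 2} {ε : ℝ} (h : Tri S (hom x r hr w) u ε) :
    Tri (hom x r hr ⁻¹' S) w u (ε / r) := by
  refine ⟨div_pos h.pos hr, h.norm, h.ang, ?_⟩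
  have he : r * (ε / r) = ε := mul_div_cancel₀ ε hr.ne'
  ext v
  have h1 : v ∈ hom x r hr ⁻¹' S ∩ ball w (ε / r) ↔
      hom x r hr v ∈ S ∩ ball (hom x r hr w) ε := by
    rw [mem_inter_iff, mem_inter_iff, mem_preimage, ← mem_ball_hom (x := x) hr v w (ε / r), he]
  rw [h1, h.eq, mem_ofPred_eq, mem_ofPred_eq]
  constructor
  · rintro ⟨i, s, hs0, hs, hv⟩
    refine ⟨i, s / r, div_nonneg hs0 hr.le, div_lt_div_of_pos_right hs hr, ?_⟩
    rw [hom_apply, hom_apply] at hv
    have h2 : r • v = r • w + s • u i := by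
      have := congrArg (fun z => z - x) hv
      simpa [add_sub_cancel_left, add_assoc] using this
    have h3 := congrArg (fun z => r⁻¹ • z) h2
    simp only [smul_add, smul_smul, inv_mul_cancel₀ hr.ne', one_smul] at h3
    rw [h3, div_eq_inv_mul]
  · rintro ⟨i, s, hs0, hs, rfl⟩
    refine ⟨i, r * s, mul_nonneg hr.le hs0, ?_, ?_⟩
    · calc r * s < r * (ε / r) := (mul_lt_mul_iff_right₀ hr).2 hs
        _ = ε := he
    · rw [hom_apply, hom_apply, smul_add, smul_smul, add_assoc]

theorem locAdm {A S : Set (E 2)} (L : LocAdm A S x r) :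
    LocAdm (hom x r hr ⁻¹' A) (hom x r hr ⁻¹' S) 0 1 := by
  have hball : ∀ B : Set (E 2), hom x r hr ⁻¹' B ∩ ball 0 1 = (hom x r hr).symm '' (B ∩ ball x r) := by
    intro B
    rw [← preimage_eq]
    ext w
    rw [mem_preimage, mem_inter_iff, mem_inter_iff, mem_preimage, mem_ball_hom_one]
  refine ⟨one_pos, L.hS.preimage (hom x r hr).continuous, ?_, ?_, ?_, ?_⟩
  · rw [← preimage_union, preimage_eq]
    exact L.conn.image _ (hom x r hr).symm.continuous.continuousOn
  · intro z hz hzb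
    exact L.far _ hz ((mem_ball_hom_one hr z).2 hzb)
  · rw [hball]
    exact ne_top_of_le_ne_top (ENNReal.mul_ne_top ENNReal.ofReal_ne_top L.fin)
      (meas_symm_image_le hr _)
  · intro T hT hc hT'
    have h1 := L.minim (hom x r hr '' T) ((hom x r hr).isClosedMap T hT) (by
      have h2 : hom x r hr '' T ∪ A = hom x r hr '' (T ∪ hom x r hr ⁻¹' A) := by
        rw [image_union, image_preimage_eq _ (hom x r hr).surjective]
      rw [h2]
      exact hc.image _ (hom x r hr).continuous.continuousOn) (by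
      ext z
      have h2 := Set.ext_iff.1 hT' ((hom x r hr).symm z)
      rw [Set.mem_sdiff, Set.mem_sdiff, mem_preimage, ← mem_ball_hom_one (x := x) hr,
        Homeomorph.apply_symm_apply] at h2
      rw [Set.mem_sdiff, Set.mem_sdiff, ← h2, ← Homeomorph.preimage_symm, mem_preimage])
    rw [hball]
    have h3 : hom x r hr '' T ∩ ball x r = hom x r hr '' (T ∩ ball 0 1) := by
      rw [image_inter (hom x r hr).injective]
      congr 1
      ext z
      rw [← Homeomorph.preimage_symm, mem_preimage, ← mem_ball_hom_one (x := x) hr,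
        Homeomorph.apply_symm_apply]
    calc μH[1] ((hom x r hr).symm '' (S ∩ ball x r)) ≤ ENNReal.ofReal r⁻¹ * μH[1] (S ∩ ball x r) :=
          meas_symm_image_le hr _
      _ ≤ ENNReal.ofReal r⁻¹ * μH[1] (hom x r hr '' T ∩ ball x r) := by gcongr
      _ ≤ ENNReal.ofReal r⁻¹ * (ENNReal.ofReal r * μH[1] (T ∩ ball 0 1)) := by
          rw [h3]
          gcongr
          exact meas_image_le hr _
      _ = μH[1] (T ∩ ball 0 1) := by
          rw [← mul_assoc, ← ENNReal.ofReal_mul (inv_pos.2 hr).le, inv_mul_cancel₀ hr.ne',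
            ENNReal.ofReal_one, one_mul]

end SCL

/-- row SCL -/
theorem scl : ST_SCL := by
  intro A S x r L hA hreg t Y hY
  have hr := L.rpos
  refine ⟨SCL.hom x r hr ⁻¹' A, SCL.hom x r hr ⁻¹' S,
    Y.map (SCL.hom x r hr).symm.toEquiv.toEmbedding, SCL.locAdm hr L,
    hA.preimage (SCL.hom x r hr).continuous, ?_, Finset.card_map _, ?_⟩
  · rintro z ⟨hz, hzb⟩
    rcases hreg (SCL.hom x r hr z) ⟨hz, (SCL.mem_ball_hom_one hr z).2 hzb⟩ with ⟨u, ε, h⟩ | ⟨u, ε, h⟩
    · exact Or.inl ⟨u, _, SCL.lin hr h⟩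
    · exact Or.inr ⟨u, _, SCL.tri hr h⟩
  · intro y hy
    rw [Finset.mem_map] at hy
    obtain ⟨w, hw, rfl⟩ := hy
    obtain ⟨h1, u, ε, h2⟩ := hY w hw
    have h3 : SCL.hom x r hr ((SCL.hom x r hr).symm w) = w := Homeomorph.apply_symm_apply _ _
    refine ⟨(SCL.mem_ball_hom_zero (x := x) hr _ t).1 ?_, u, ε / r, SCL.tri hr ?_⟩
    · show SCL.hom x r hr ((SCL.hom x r hr).symm w) ∈ ball x (t * r)
      rw [h3]; exact h1
    · show Tri S (SCL.hom x r hr ((SCL.hom x r hr).symm w)) u ε
      rw [h3]; exact h2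

end PU
end H11ST
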